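import Pool.Agent.H474.MS.Stm3

/-!
# Products of Bessel functions against a Gaussian
-/

set_option autoImplicit false

open MeasureTheory Filter Topology Set

namespace Pool.Agent.H707.MS.K4

open Pool.Agent.H474.MS (J0)

theorem cos_err (y : ℝ) : |Real.cos y - 1 + y ^ 2 / 2| ≤ 5 / 2 * y ^ 4 := by
  by_cases h : |y| ≤ 1
  · have h1 := Real.cos_bound h
    rw [show Real.cos y - 1 + y ^ 2 / 2 = Real.cos y - (1 - y ^ 2 / 2) by ring]
    have h2 : |y| ^ 4 = y ^ 4 := by
      rw [show |y| ^ 4 = (|y| ^ 2) ^ 2 by ring, sq_abs]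
      ring
    rw [h2] at h1
    have h3 : 0 ≤ y ^ 4 := by positivity
    linarith
  · push Not at h
    have h1 : 1 ≤ y ^ 2 := by
      rw [← sq_abs]
      nlinarith
    have h2 : y ^ 2 ≤ y ^ 4 := by nlinarith
    have h3 := Real.cos_le_one y
    have h4 := Real.neg_one_le_cos y
    rw [abs_le]
    constructor <;> nlinarith

theorem exp_err (z : ℝ) (hz : 0 ≤ z) : |Real.exp (-z) - 1 + z| ≤ z ^ 2 := by
  by_cases h : z ≤ 1
  · have h1 := Real.abs_exp_sub_one_sub_id_le (x := -z) (by rw [abs_neg, abs_of_nonneg hz]; exact h)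
    rw [show Real.exp (-z) - 1 + z = Real.exp (-z) - 1 - -z by ring]
    rwa [neg_sq] at h1
  · push Not at h
    have h1 : Real.exp (-z) ≤ 1 := Real.exp_le_one_iff.2 (by linarith)
    have h2 := Real.add_one_le_exp (-z)
    rw [abs_le]
    constructor <;> nlinarith

theorem J0_le (x : ℝ) : |J0 x| ≤ 1 := by
  have hpi := Real.pi_pos
  have h := intervalIntegral.norm_integral_le_of_norm_le_const
    (f := fun θ : ℝ => Real.cos (x * Real.cos θ)) (a := 0) (b := 2 * Real.pi) (C := 1)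
    (fun θ _ => by rw [Real.norm_eq_abs]; exact Real.abs_cos_le_one _)
  rw [J0, abs_div, abs_of_pos (by positivity : 0 < 2 * Real.pi), div_le_one (by positivity)]
  rw [Real.norm_eq_abs, sub_zero, abs_of_pos (by positivity : 0 < 2 * Real.pi), one_mul] at h
  exact h

theorem J0_err (x : ℝ) : |J0 x - (1 - x ^ 2 / 4)| ≤ 5 / 2 * x ^ 4 := by
  have hpi := Real.pi_pos
  have hint1 : IntervalIntegrable (fun θ : ℝ => Real.cos (x * Real.cos θ)) volume 0
      (2 * Real.pi) := by
    apply Continuous.intervalIntegrable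
    fun_prop
  have hint2 : IntervalIntegrable (fun θ : ℝ => -1 + x ^ 2 / 2 * Real.cos θ ^ 2) volume 0
      (2 * Real.pi) := by
    apply Continuous.intervalIntegrable
    fun_prop
  have hint3 : IntervalIntegrable (fun θ : ℝ => x ^ 2 / 2 * Real.cos θ ^ 2) volume 0
      (2 * Real.pi) := by
    apply Continuous.intervalIntegrable
    fun_prop
  have hcos : ∫ θ in (0 : ℝ)..(2 * Real.pi), Real.cos θ ^ 2 = Real.pi := by
    rw [integral_cos_sq]
    simp
  have h1 : ∫ θ in (0 : ℝ)..(2 * Real.pi),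
      (Real.cos (x * Real.cos θ) + (-1 + x ^ 2 / 2 * Real.cos θ ^ 2)) =
      (J0 x - (1 - x ^ 2 / 4)) * (2 * Real.pi) := by
    rw [intervalIntegral.integral_add hint1 hint2,
      intervalIntegral.integral_add intervalIntegrable_const hint3,
      intervalIntegral.integral_const_mul, hcos, intervalIntegral.integral_const, J0]
    have : 2 * Real.pi ≠ 0 := by positivity
    field_simp
    rw [smul_eq_mul]
    ring
  have h2 := intervalIntegral.norm_integral_le_of_norm_le_const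
    (f := fun θ : ℝ => Real.cos (x * Real.cos θ) + (-1 + x ^ 2 / 2 * Real.cos θ ^ 2)) (a := 0)
    (b := 2 * Real.pi) (C := 5 / 2 * x ^ 4) (fun θ _ => by
      rw [Real.norm_eq_abs]
      have h3 := cos_err (x * Real.cos θ)
      rw [show Real.cos (x * Real.cos θ) + (-1 + x ^ 2 / 2 * Real.cos θ ^ 2) =
        Real.cos (x * Real.cos θ) - 1 + (x * Real.cos θ) ^ 2 / 2 by ring]
      refine h3.trans ?_
      have h4 : Real.cos θ ^ 4 ≤ 1 := by
        have h5 := Real.cos_sq_le_one θ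
        have h6 : 0 ≤ Real.cos θ ^ 2 := sq_nonneg _
        nlinarith
      have h5 : 0 ≤ x ^ 4 := by positivity
      rw [mul_pow]
      nlinarith)
  rw [h1, Real.norm_eq_abs, abs_mul, sub_zero, abs_of_pos (by positivity : 0 < 2 * Real.pi)] at h2
  exact le_of_mul_le_mul_right h2 (by positivity)

theorem J0_exp (x : ℝ) : |J0 x - Real.exp (-(x ^ 2 / 4))| ≤ 3 * x ^ 4 := by
  have h1 := J0_err x
  have h2 := exp_err (x ^ 2 / 4) (by positivity)
  have h3 : J0 x - Real.exp (-(x ^ 2 / 4)) =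
      (J0 x - (1 - x ^ 2 / 4)) - (Real.exp (-(x ^ 2 / 4)) - 1 + x ^ 2 / 4) := by ring
  rw [h3]
  refine (abs_sub _ _).trans ?_
  have h4 : 0 ≤ x ^ 4 := by positivity
  have h5 : (x ^ 2 / 4) ^ 2 = x ^ 4 / 16 := by ring
  rw [h5] at h2
  linarith

theorem prod_err {ι : Type} (s : Finset ι) (x y : ι → ℝ) (hx : ∀ i, |x i| ≤ 1)
    (hy : ∀ i, |y i| ≤ 1) : |∏ i ∈ s, x i - ∏ i ∈ s, y i| ≤ ∑ i ∈ s, |x i - y i| := by
  classical
  induction s using Finset.induction_on with
  | empty => simp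
  | insert i s hi ih =>
    rw [Finset.prod_insert hi, Finset.prod_insert hi, Finset.sum_insert hi]
    have hp : |∏ j ∈ s, x j| ≤ 1 := by
      rw [Finset.abs_prod]
      exact Finset.prod_le_one (fun j _ => abs_nonneg _) fun j _ => hx j
    have h1 : x i * ∏ j ∈ s, x j - y i * ∏ j ∈ s, y j =
        (x i - y i) * ∏ j ∈ s, x j + y i * (∏ j ∈ s, x j - ∏ j ∈ s, y j) := by ring
    rw [h1]
    refine (abs_add_le _ _).trans ?_
    rw [abs_mul, abs_mul]
    have h2 : |x i - y i| * |∏ j ∈ s, x j| ≤ |x i - y i| :=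
      mul_le_of_le_one_right (abs_nonneg _) hp
    have h3 : |y i| * |∏ j ∈ s, x j - ∏ j ∈ s, y j| ≤ |∏ j ∈ s, x j - ∏ j ∈ s, y j| :=
      mul_le_of_le_one_left (abs_nonneg _) (hy i)
    linarith

theorem t_K4 : Pool.Agent.H474.MS.S_K4 := by
  refine ⟨48, by norm_num, ?_⟩
  intro n a t
  have h1 : Real.exp (-(t ^ 2 * ∑ i, a i ^ 2)) = ∏ i, Real.exp (-((2 * a i * t) ^ 2 / 4)) := by
    rw [← Real.exp_sum]
    congr 1
    rw [Finset.mul_sum, ← Finset.sum_neg_distrib]
    refine Finset.sum_congr rfl fun i _ => ?_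
    ring
  rw [h1]
  refine (prod_err _ _ _ (fun i => J0_le _) fun i => ?_).trans ?_
  · rw [Real.abs_exp, Real.exp_le_one_iff]
    have : 0 ≤ (2 * a i * t) ^ 2 / 4 := by positivity
    linarith
  · rw [Finset.mul_sum]
    refine Finset.sum_le_sum fun i _ => (J0_exp _).trans (le_of_eq ?_)
    ring

end Pool.Agent.H707.MS.K4
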